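import Mathlib
import Pool.Agent.H78.BN.Defs
import Pool.Agent.H78.BN.Generic
import Pool.Agent.H78.BN.Generic2
import Pool.Agent.H49.BD.Defs
import Pool.Agent.H49.BD.Final
import Pool.Agent.H56.BN.Fin
import Pool.Agent.H32.BM.Crit
import Pool.Agent.H32.BM.FamIff
import Pool.Agent.H32.BM.Doubling
import Pool.Agent.H88.BT.Final

/-!
# MP_3a77f1_co: an explicit necessary and sufficient condition for `B*(d) < 3/4`, and why there is
no essentially simpler one

1. For every number of letters: `B*(d) < 3/4` iff the prefix condition holds and no window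
   `(a, b]` shorter than `D / (2 min dᵢ)` has to contain more than `b - a` letters.
2. At most three letters: all instances.
3. Four or more letters: addition and the set `S_n` of the instances with `B*(d) < 3/4` define
   multiplication (so `S_n` is definable in Presburger arithmetic only for `n ≤ 3`); no finite set of
   terms decides whether `B*(d) < 3/4`, not even for `gcd = 1`: neither by the signs of real
   polynomials in the terms, nor by the valuations and leading `p`-adic digits of the terms. A term is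
   built from the `d_i` and rational constants by the four operations, the floor and case distinctions
   according to a sign.
4. Five or more letters: `B*(d) < 3/4` only on finitely many hyperplanes.
5. The number of letters part of the input: the set of the instances with `B*(d) < 3/4` is
   coNP-complete, and in NP only if NP is closed under complements.
-/

set_option autoImplicit false

open FirstOrder Pool.Agent.H49.BD Pool.Agent.H72.NP Pool.Agent.H78.BN Pool.Agent.H80.Poly
  Pool.Agent.H88.BR

namespace Pool.Agent.Results.MP_3a77f1_co.Answer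

theorem result :
    -- (1) a necessary and sufficient condition for every number of letters
    (∀ (n : ℕ) (d : Fin n → ℕ), 1 ≤ n → (∀ i, 0 < d i) →
      (Bstar d < 3 / 4 ↔
        (∀ k : ℕ, k ≤ total d → ∑ i, ⌊(k : ℝ) * d i / total d + 1 / 4⌋ ≤ (k : ℤ)) ∧
        (∀ a b : ℕ, a < b → b ≤ total d → (∃ l, 2 * (b - a) * d l < total d) →
          ∑ i, max 0 (⌊(b : ℝ) * d i / total d + 1 / 4⌋ - ⌈(a : ℝ) * d i / total d - 1 / 4⌉)
            ≤ (b : ℤ) - a))) ∧
    -- (2) at most three letters: all instances
    (∀ n : ℕ, 1 ≤ n → n ≤ 3 → ∀ d : Fin n → ℕ, (∀ i, 0 < d i) → Bstar d < 3 / 4) ∧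
    -- (3) four or more letters: no finite description
    (∀ n : ℕ, 4 ≤ n →
      -- `+` and `S_n` define multiplication
      (∀ (L : FirstOrder.Language.{0, 0}) [L.Structure ℕ] (A : Set ℕ),
        A.Definable L {v : Fin 3 → ℕ | v 0 = v 1 + v 2} →
        A.Definable L {d : Fin n → ℕ | (∀ i, 0 < d i) ∧ Bstar d < 3 / 4} →
        A.Definable L {v : Fin 3 → ℕ | v 0 = v 1 * v 2}) ∧
      -- `S_n` is not definable in Presburger arithmetic
      (∀ A : Set ℕ, ¬ A.Definable Language.presburger
        {d : Fin n → ℕ | (∀ i, 0 < d i) ∧ Bstar d < 3 / 4}) ∧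
      -- finitely many terms, `gcd = 1`: signs, valuations, congruences and leading digits
      (∀ (m : ℕ) (P : Finset (MvPolynomial (Tm n) ℝ)) (F : Finset (Tm n)),
        ∃ d d' : Fin n → ℕ, (∀ i, 0 < d i) ∧ (∀ i, 0 < d' i) ∧
          Finset.univ.gcd d = 1 ∧ Finset.univ.gcd d' = 1 ∧
          (∀ p ∈ P, SignType.sign (MvPolynomial.eval (fun τ : Tm n => (τ.value d : ℝ)) p)
            = SignType.sign (MvPolynomial.eval (fun τ : Tm n => (τ.value d' : ℝ)) p)) ∧
          (∀ τ ∈ F, ∀ ℓ : ℕ, ℓ.Prime → ℓ ≤ m →
            padicNorm ℓ (τ.value d - τ.value d') ≤ (ℓ : ℚ) ^ (-(m : ℤ)) * padicNorm ℓ (τ.value d)) ∧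
          Bstar d < 3 / 4 ∧ ¬ Bstar d' < 3 / 4)) ∧
    -- (4) five or more letters: only on finitely many hyperplanes
    (∀ n : ℕ, 5 ≤ n → ∃ C : ℕ, ∀ d : Fin n → ℕ, (∀ i, 0 < d i) → Bstar d < 3 / 4 →
      ∃ h : Fin n → ℤ, h ≠ 0 ∧ (∀ i, |h i| ≤ (C : ℤ)) ∧ ∑ i, h i * (d i : ℤ) = 0) ∧
    -- (5) the number of letters in the input: coNP-complete, in NP only if NP = coNP
    CoNPComplete (fun d : Instance => (BEnc.enc d.1 : List Bool))
      (fun d => Bstar d.1.get < 3 / 4) ∧
    (InNP (fun d : Instance => (BEnc.enc d.1 : List Bool)) (fun d => Bstar d.1.get < 3 / 4) →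
      ∀ L : List Bool → Prop, InNP (id : List Bool → List Bool) L →
        InNP (id : List Bool → List Bool) (fun x => ¬ L x)) := by
  have hdbl : Pool.Agent.H56.BN.Doubling := fun _ d hD => Pool.Agent.H32.BM.doubling d hD
  have hfam : Pool.Agent.H56.BN.FamIff := fun q m hq hm => Pool.Agent.H32.BM.fam_iff q m hq hm
  have hDpos : ∀ {n : ℕ} (d : Fin n → ℕ), 1 ≤ n → (∀ i, 0 < d i) → 0 < total d := by
    intro n d hn hd
    unfold total
    exact Finset.sum_pos (fun i _ => hd i) ⟨⟨0, by omega⟩, Finset.mem_univ _⟩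
  refine ⟨?_, ?_, ?_, ?_, coNPComplete_below, compl_inNP⟩
  · intro n d hn hd
    exact Pool.Agent.H32.BM.criterion n d hn hd
  · intro n hn1 hn3 d hd
    exact Bstar_lt_three hn3 d hd (hDpos d hn1 hd)
  · intro n hn
    refine ⟨?_, ?_, ?_⟩
    · intro L _ A h hS
      exact Pool.Agent.H56.BN.mul_definable_all hfam hdbl n hn L A h hS
    · intro A hA
      have := (Pool.Agent.H56.BN.presburger_iff hfam hdbl n (by omega) A).mp hA
      omega
    · intro m P F
      exact Pool.Agent.H88.BT.no_terms n hn m P F
  · intro n hn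
    exact five_letters n hn

end Pool.Agent.Results.MP_3a77f1_co.Answer
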