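import Mathlib
import Pool.Agent.H78.BN.Defs
import Pool.Agent.H78.BN.Generic
import Pool.Agent.H49.BD.Defs
import Pool.Agent.H49.BD.Final

/-!
# MP_3a77f1_co: the complexity of `B*(d) < 3/4`

1. An explicit necessary and sufficient condition for `B*(d) < 3/4`: no window `(a, b]` has to
   contain more than `b - a` letters.
2. The set of the instances `d` with `B*(d) < 3/4` is coNP-complete (numbers in binary, polynomial
   time for Mathlib's Turing machines, many-one reductions).
3. If some condition verifiable in polynomial time is necessary and sufficient for `B*(d) < 3/4`,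
   then NP is closed under complements.
4. With numbers in unary `B*(d) < 3/4` is decidable in polynomial time.
-/

set_option autoImplicit false

open Pool.Agent.H49.BD Pool.Agent.H72.NP Pool.Agent.H78.BN Pool.Agent.H80.Poly

namespace Pool.Agent.Results.MP_3a77f1_co.CoNPComplete

theorem result :
    -- a necessary and sufficient condition
    (∀ (n : ℕ) (d : Fin n → ℕ), 1 ≤ n → (∀ i, 0 < d i) →
      (Bstar d < 3 / 4 ↔ ∀ a b : ℕ, a < b → b ≤ total d →
        ∑ i, max 0 (⌊(b : ℝ) * ((d i : ℝ) / total d) + 1 / 4⌋
          - ⌈(a : ℝ) * ((d i : ℝ) / total d) - 1 / 4⌉) ≤ (b : ℤ) - a)) ∧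
    -- coNP-complete for numbers in binary
    CoNPComplete (fun d : Instance => (BEnc.enc d.1 : List Bool))
      (fun d => Bstar d.1.get < 3 / 4) ∧
    -- hence not in NP, unless NP is closed under complements
    (InNP (fun d : Instance => (BEnc.enc d.1 : List Bool)) (fun d => Bstar d.1.get < 3 / 4) →
      ∀ L : List Bool → Prop, InNP (id : List Bool → List Bool) L →
        InNP (id : List Bool → List Bool) (fun x => ¬ L x)) ∧
    -- polynomial time for numbers in unary
    InP (fun d : Instance => (BEnc.enc (d.1.map UNat.ofNat) : List Bool))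
      (fun d => Bstar d.1.get < 3 / 4) := by
  refine ⟨?_, coNPComplete_below, compl_inNP, unary_inP⟩
  intro n d hn hd
  have hD : 0 < total d := by
    unfold total
    exact Finset.sum_pos (fun i _ => hd i) ⟨⟨0, by omega⟩, Finset.mem_univ _⟩
  constructor
  · intro hB a b hab _
    exact hall_of_Bstar_lt d hD hB a b (le_of_lt hab)
  · intro h
    exact Bstar_lt_of_hall d hD h

end Pool.Agent.Results.MP_3a77f1_co.CoNPComplete
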