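import Mathlib
import Pool.Agent.H78.BN.Defs
import Pool.Agent.H78.BN.Generic2

/-!
# MP_3a77f1_co: which instances have `B*(d) < 3/4`, for every number of letters, up to
hyperplanes

* at most three letters: all of them;
* four letters: if the rounding condition
  `∑ ⌊L dᵢ/D + 1/2⌋ ≤ L` (all `L ≥ 1` with `L d_l < D/2` for some `l`) holds, then
  `B*(d) < 3/4` iff the `dᵢ/g` are not all congruent modulo `4` to one odd number;
  if it fails at `L` (with margin `ε`), then `B*(d) < 3/4` only on finitely many hyperplanes;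
* five or more letters: `B*(d) < 3/4` only on finitely many hyperplanes.
-/

set_option autoImplicit false

open Pool.Agent.H78.BN

namespace Pool.Agent.Results.MP_3a77f1_co.GenericClassification

theorem result :
    -- at most three letters
    (∀ n : ℕ, 1 ≤ n → n ≤ 3 → ∀ d : Fin n → ℕ, (∀ i, 0 < d i) → Bstar d < 3 / 4) ∧
    -- four letters, rounding condition satisfied
    (∀ d : Fin 4 → ℕ, (∀ i, 0 < d i) →
      (∀ L : ℕ, 1 ≤ L → (∃ l, 2 * L * d l < total d) →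
        ∑ i, ⌊(L : ℝ) * d i / total d + 1 / 2⌋ ≤ (L : ℤ)) →
      (Bstar d < 3 / 4 ↔ ¬ ∃ g c : ℕ, Odd c ∧ ∀ i, ∃ t : ℕ, d i = g * (4 * t + c))) ∧
    -- four letters, rounding condition violated (with margin `ε`)
    (∀ (L : ℕ) (ε : ℝ), 0 < ε → ∃ C : ℕ, ∀ (d : Fin 4 → ℕ) (l : Fin 4), (∀ i, 0 < d i) →
      2 * L * d l < total d →
      (∀ i, i ≠ l → 1 / 2 + ε ≤ Int.fract ((L : ℝ) * d i / total d)) →
      (L : ℤ) < ∑ i, ⌊(L : ℝ) * d i / total d + 1 / 2⌋ →
      Bstar d < 3 / 4 →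
      ∃ h : Fin 4 → ℤ, h ≠ 0 ∧ (∀ i, |h i| ≤ (C : ℤ)) ∧ ∑ i, h i * (d i : ℤ) = 0) ∧
    -- five or more letters
    (∀ n : ℕ, 5 ≤ n → ∃ C : ℕ, ∀ d : Fin n → ℕ, (∀ i, 0 < d i) → Bstar d < 3 / 4 →
      ∃ h : Fin n → ℤ, h ≠ 0 ∧ (∀ i, |h i| ≤ (C : ℤ)) ∧ ∑ i, h i * (d i : ℤ) = 0) := by
  refine ⟨?_, ?_, ?_, ?_⟩
  · intro n hn1 hn3 d hd
    have hD : 0 < total d := by
      unfold total
      exact Finset.sum_pos (fun i _ => hd i) ⟨⟨0, by omega⟩, Finset.mem_univ _⟩
    exact Bstar_lt_three hn3 d hd hD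
  · intro d hd hR
    exact four_letters d hd hR
  · intro L ε hε
    exact four_letters_generic L ε hε
  · intro n hn
    exact five_letters n hn

end Pool.Agent.Results.MP_3a77f1_co.GenericClassification
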