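import Mathlib
import Pool.Agent.H78.BN.Defs
import Pool.Agent.H56.BN.Fin
import Pool.Agent.H32.BM.FamIff
import Pool.Agent.H32.BM.Doubling
import Pool.Agent.H88.BT.Final

/-!
# MP_3a77f1_co: there is no formula for `B*(d) < 3/4` with four or more letters

`S_n` is the set of the instances `d` with `n` letters and `B*(d) < 3/4`.

1. For `n ≥ 4`, multiplication is definable from addition and `S_n`.
2. `S_n` is definable in Presburger arithmetic (is semilinear) if and only if `n ≤ 3`.
3. For `n ≥ 4`, `S_n` is not a finite Boolean combination of inequalities, congruences and conditions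
   on the valuations and the leading `p`-adic digits (finitely many primes `p`) of terms built from the
   `d_i` and rational constants by the four operations, the floor and case distinctions according to
   a sign, not even among the instances with `gcd = 1`.
-/

set_option autoImplicit false

open FirstOrder Pool.Agent.H78.BN Pool.Agent.H88.BR

namespace Pool.Agent.Results.MP_3a77f1_co.NoFormula

theorem result :
    -- (1) four or more letters: addition and `S_n` define multiplication
    (∀ n : ℕ, 4 ≤ n → ∀ (L : FirstOrder.Language.{0, 0}) [L.Structure ℕ] (A : Set ℕ),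
      A.Definable L {v : Fin 3 → ℕ | v 0 = v 1 + v 2} →
      A.Definable L {d : Fin n → ℕ | (∀ i, 0 < d i) ∧ Bstar d < 3 / 4} →
      A.Definable L {v : Fin 3 → ℕ | v 0 = v 1 * v 2}) ∧
    -- (2) `S_n` is Presburger definable (with any parameters) iff `n ≤ 3`
    (∀ n : ℕ, 1 ≤ n → ∀ A : Set ℕ,
      (A.Definable Language.presburger {d : Fin n → ℕ | (∀ i, 0 < d i) ∧ Bstar d < 3 / 4} ↔
        n ≤ 3)) ∧
    -- (3) four or more letters, finitely many terms, built from the `d_i` and rational constants by
    -- the four operations, the floor and case distinctions according to a sign: the signs of real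
    -- polynomials in the terms and, for the primes `ℓ ≤ m`, the valuations `v` of the values and the
    -- values modulo `ℓ ^ (v + m)` do not decide whether `B*(d) < 3/4`, even for `gcd = 1`
    (∀ n : ℕ, 4 ≤ n → ∀ (m : ℕ) (P : Finset (MvPolynomial (Tm n) ℝ)) (F : Finset (Tm n)),
      ∃ d d' : Fin n → ℕ, (∀ i, 0 < d i) ∧ (∀ i, 0 < d' i) ∧
        Finset.univ.gcd d = 1 ∧ Finset.univ.gcd d' = 1 ∧
        (∀ p ∈ P, SignType.sign (MvPolynomial.eval (fun τ : Tm n => (τ.value d : ℝ)) p)
          = SignType.sign (MvPolynomial.eval (fun τ : Tm n => (τ.value d' : ℝ)) p)) ∧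
        (∀ τ ∈ F, ∀ ℓ : ℕ, ℓ.Prime → ℓ ≤ m →
          padicNorm ℓ (τ.value d - τ.value d') ≤ (ℓ : ℚ) ^ (-(m : ℤ)) * padicNorm ℓ (τ.value d)) ∧
        Bstar d < 3 / 4 ∧ ¬ Bstar d' < 3 / 4) := by
  have hdbl : Pool.Agent.H56.BN.Doubling := fun _ d hD => Pool.Agent.H32.BM.doubling d hD
  have hfam : Pool.Agent.H56.BN.FamIff := fun q m hq hm => Pool.Agent.H32.BM.fam_iff q m hq hm
  refine ⟨?_, ?_, ?_⟩
  · intro n hn L _ A h hS
    exact Pool.Agent.H56.BN.mul_definable_all hfam hdbl n hn L A h hS
  · intro n hn A
    exact Pool.Agent.H56.BN.presburger_iff hfam hdbl n hn A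
  · intro n hn m P F
    exact Pool.Agent.H88.BT.no_terms n hn m P F

end Pool.Agent.Results.MP_3a77f1_co.NoFormula
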